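import Mathlib

set_option autoImplicit false

/-!
# The silver base: Pell numbers
-/

namespace Pool.Agent.U776.PS

/-- the silver ratio -/
noncomputable def sr : ℝ := 1 + √2

/-- its conjugate -/
noncomputable def sc : ℝ := 1 - √2

/-- the Pell numbers -/
def pe : ℕ → ℕ
  | 0 => 0
  | 1 => 1
  | (n + 2) => 2 * pe (n + 1) + pe n

lemma pe_add_two (n : ℕ) : pe (n + 2) = 2 * pe (n + 1) + pe n := rfl

lemma pe_pos {n : ℕ} (h : 0 < n) : 0 < pe n := by
  induction n using Nat.twoStepInduction with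
  | zero => omega
  | one => decide
  | more n _ h2 =>
    rw [pe_add_two]
    have := h2 (by omega)
    omega

lemma pe_add (m n : ℕ) : pe (m + n + 1) = pe m * pe n + pe (m + 1) * pe (n + 1) := by
  induction n using Nat.twoStepInduction generalizing m with
  | zero => simp [pe]
  | one =>
    have : pe (m + 1 + 1) = 2 * pe (m + 1) + pe m := rfl
    rw [this]
    simp [pe]
    ring
  | more n h1 h2 =>
    have e1 : pe (m + (n + 2) + 1) = 2 * pe (m + (n + 1) + 1) + pe (m + n + 1) := rfl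
    have e2 : pe (n + 2 + 1) = 2 * pe (n + 1 + 1) + pe (n + 1) := rfl
    have e3 : pe (n + 1 + 1) = 2 * pe (n + 1) + pe n := rfl
    rw [e1, h2, h1, e2, e3]
    ring

lemma pe_coprime (n : ℕ) : (pe n).Coprime (pe (n + 1)) := by
  induction n with
  | zero => simp [pe]
  | succ n ih =>
    rw [show n + 1 + 1 = n + 2 from rfl, pe_add_two]
    rw [Nat.coprime_mul_right_add_right]
    exact ih.symm

lemma sqrt2_sq : √(2 : ℝ) ^ 2 = 2 := Real.sq_sqrt (by norm_num)

lemma sqrt2_gt : (1.414 : ℝ) < √2 := by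
  rw [Real.lt_sqrt (by norm_num)]
  norm_num

lemma sqrt2_lt : √2 < (1.415 : ℝ) := by
  rw [Real.sqrt_lt' (by norm_num)]
  norm_num

lemma sr_gt : (2.414 : ℝ) < sr := by
  unfold sr
  linarith [sqrt2_gt]

lemma sr_lt : sr < (2.415 : ℝ) := by
  unfold sr
  linarith [sqrt2_lt]

lemma sr_pos : 0 < sr := by linarith [sr_gt]

lemma one_lt_sr : 1 < sr := by linarith [sr_gt]

lemma sr_sq : sr ^ 2 = 2 * sr + 1 := by
  unfold sr
  nlinarith [sqrt2_sq]

lemma inv_sr : sr⁻¹ = sr - 2 := by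
  have h := sr_pos.ne'
  have h2 := sr_sq
  rw [inv_eq_one_div, div_eq_iff h]
  linarith

lemma sc_eq : sc = 2 - sr := by unfold sc sr; ring

lemma sc_neg : sc < 0 := by rw [sc_eq]; linarith [sr_gt]

lemma sc_abs : |sc| = sr⁻¹ := by rw [abs_of_neg sc_neg, inv_sr, sc_eq]; ring

lemma sc_sq : sc ^ 2 = 2 * sc + 1 := by
  rw [sc_eq]
  nlinarith [sr_sq]

lemma sc_mul (n : ℕ) : sc * pe (n + 1) + pe n = sc ^ (n + 1) := by
  induction n with
  | zero => simp [pe]
  | succ n ih =>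
    have e : pe (n + 1 + 1) = 2 * pe (n + 1) + pe n := rfl
    rw [e, pow_succ, ← ih]
    push_cast
    linear_combination (-(pe (n + 1) : ℝ)) * sc_sq

/-- `U_(h+1) + U_h / α = α ^ h` -/
lemma pe_sr (h : ℕ) : (pe (h + 1) : ℝ) + (pe h : ℝ) / sr = sr ^ h := by
  rw [div_eq_mul_inv, inv_sr]
  induction h with
  | zero => simp [pe]
  | succ h ih =>
    have e : pe (h + 1 + 1) = 2 * pe (h + 1) + pe h := rfl
    rw [e, pow_succ, ← ih]
    push_cast
    linear_combination (-(pe h : ℝ)) * sr_sq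

lemma pe_le (n : ℕ) : (pe (n + 1) : ℝ) ≤ sr ^ n := by
  have h1 := pe_sr n
  have h2 : (0 : ℝ) ≤ (pe n : ℝ) / sr := div_nonneg (Nat.cast_nonneg _) sr_pos.le
  linarith

lemma pe_le' (n : ℕ) : (pe n : ℝ) ≤ sr ^ n := by
  rcases n with _ | n
  · simp [pe]
  · exact (pe_le n).trans (pow_le_pow_right₀ one_lt_sr.le (by omega))

lemma pe_ge (n : ℕ) : sr ^ n ≤ (pe (n + 2) : ℝ) := by
  have h1 := pe_sr n
  have e : pe (n + 2) = 2 * pe (n + 1) + pe n := rfl
  rw [← h1, e]
  push_cast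
  have h2 : (pe n : ℝ) / sr ≤ pe n := div_le_self (Nat.cast_nonneg _) one_lt_sr.le
  have h3 : (0 : ℝ) ≤ pe (n + 1) := Nat.cast_nonneg _
  linarith

lemma binet (n : ℕ) : (pe n : ℝ) = (sr ^ n - sc ^ n) / (2 * √2) := by
  have h0 : (2 * √(2 : ℝ)) ≠ 0 := by positivity
  rw [eq_div_iff h0]
  induction n using Nat.twoStepInduction with
  | zero => simp [pe]
  | one =>
    simp only [pe, Nat.cast_one, pow_one]
    unfold sr sc
    ring
  | more n h1 h2 =>
    have e : pe (n + 2) = 2 * pe (n + 1) + pe n := rfl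
    rw [e]
    push_cast
    have e1 : sr ^ (n + 2) = 2 * sr ^ (n + 1) + sr ^ n := by
      rw [pow_add, sr_sq]; ring
    have e2 : sc ^ (n + 2) = 2 * sc ^ (n + 1) + sc ^ n := by
      rw [pow_add, sc_sq]; ring
    rw [e1, e2]
    linear_combination 2 * h2 + h1

end Pool.Agent.U776.PS
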