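import Mathlib
import Pool.Agent.U776.PS.Base

/-!
# `⌊N / α⌋` is linear along Pell steps, few exceptions
(silver version of `Pool.Agent.N402.GW.Lin0`)
-/

set_option autoImplicit false

namespace Pool.Agent.U776.PS

open Finset Real

/-- approximation by rationals -/
lemma dio (n : ℕ) (hn : 1 ≤ n) (a : ℤ) : 1 / (4 * (n : ℝ)) ≤ |(n : ℝ) / sr - a| := by
  have hnR : (1 : ℝ) ≤ n := by exact_mod_cast hn
  have hφ := sr_pos
  have h1φ := one_lt_sr
  obtain ⟨t, ht⟩ : ∃ t : ℝ, t = (n : ℝ) / sr - a := ⟨_, rfl⟩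
  obtain ⟨s, hs⟩ : ∃ s : ℝ, s = (n : ℝ) * sr + a := ⟨_, rfl⟩
  have hdiv : (n : ℝ) / sr = n * (sr - 2) := by
    rw [div_eq_mul_inv, inv_sr]
  have hts : t * s = ((n ^ 2 - 2 * a * n - a ^ 2 : ℤ) : ℝ) := by
    rw [ht, hs, hdiv]
    push_cast
    have := sr_sq
    linear_combination (n : ℝ) ^ 2 * this
  have hirr : Irrational sr := by
    unfold sr
    simpa using irrational_sqrt_two.natCast_add 1
  have ht0 : t ≠ 0 := by
    intro h0
    rw [ht, hdiv] at h0
    apply hirr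
    refine ⟨(a : ℚ) / n + 2, ?_⟩
    push_cast
    have h1 : (a : ℝ) / n = sr - 2 := by
      rw [div_eq_iff (by positivity)]
      linarith
    rw [h1]
    exact sub_add_cancel _ _
  have hs0 : s ≠ 0 := by
    intro h0
    rw [hs] at h0
    apply hirr
    refine ⟨-(a : ℚ) / n, ?_⟩
    push_cast
    rw [div_eq_iff (by positivity)]
    linarith
  have hN : (n ^ 2 - 2 * a * n - a ^ 2 : ℤ) ≠ 0 := by
    intro h0
    rw [h0] at hts
    push_cast at hts
    rcases mul_eq_zero.1 hts with h | h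
    · exact ht0 h
    · exact hs0 h
  have h1 : 1 ≤ |t| * |s| := by
    rw [← abs_mul, hts]
    exact_mod_cast Int.one_le_abs hN
  rw [← ht]
  by_contra hlt
  push Not at hlt
  have hlt' : |t| * (4 * n) < 1 := by
    rwa [lt_div_iff₀ (by positivity)] at hlt
  have ht1 : |t| < 1 / 4 := by
    have h2 : |t| * 4 ≤ |t| * (4 * n) := by
      apply mul_le_mul_of_nonneg_left _ (abs_nonneg t)
      linarith
    linarith
  have hφ2 := sr_lt
  have hφ3 := sr_gt
  have hs1 : |s| ≤ 4 * n := by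
    have e1 : s = n * (2 * sr - 2) - t := by
      rw [hs, ht, hdiv]; ring
    have e2 : |s| ≤ n * (2 * sr - 2) + |t| := by
      rw [e1]
      refine (abs_sub _ _).trans ?_
      rw [abs_of_nonneg (mul_nonneg (by linarith) (by linarith) :
        (0 : ℝ) ≤ n * (2 * sr - 2))]
    have e3 : (n : ℝ) * (2 * sr - 2) ≤ n * 3 :=
      mul_le_mul_of_nonneg_left (by linarith) (by linarith)
    linarith
  have := mul_le_mul_of_nonneg_left hs1 (abs_nonneg t)
  linarith

/-- the fractional parts are separated -/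
lemma sep (A i j F : ℕ) (hi : i < F) (hj : j < i) :
    1 / (4 * (F : ℝ)) ≤ |Int.fract (((A + i : ℕ) : ℝ) / sr) -
      Int.fract (((A + j : ℕ) : ℝ) / sr)| := by
  have h1 := dio (i - j) (by omega)
    (⌊((A + i : ℕ) : ℝ) / sr⌋ - ⌊((A + j : ℕ) : ℝ) / sr⌋)
  have h2 : Int.fract (((A + i : ℕ) : ℝ) / sr) -
      Int.fract (((A + j : ℕ) : ℝ) / sr) =
      ((i - j : ℕ) : ℝ) / sr -
        ((⌊((A + i : ℕ) : ℝ) / sr⌋ - ⌊((A + j : ℕ) : ℝ) / sr⌋ : ℤ) : ℝ) := by
    rw [← Int.self_sub_floor, ← Int.self_sub_floor, Nat.cast_sub hj.le]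
    push_cast
    ring
  rw [h2]
  refine le_trans ?_ h1
  have h3 : (0 : ℝ) < ((i - j : ℕ) : ℝ) := by exact_mod_cast (by omega : 0 < i - j)
  have h4 : ((i - j : ℕ) : ℝ) ≤ F := by exact_mod_cast (by omega : i - j ≤ F)
  apply one_div_le_one_div_of_le (by positivity)
  linarith

/-- separated points in an interval -/
lemma count (S : Finset ℕ) (v : ℕ → ℝ) (x ε δ : ℝ) (hδ : 0 < δ) (hε : 0 ≤ ε)
    (h1 : ∀ i ∈ S, 0 ≤ v i - x ∧ v i - x ≤ ε)
    (h2 : ∀ i ∈ S, ∀ j ∈ S, j < i → δ ≤ |v i - v j|) : (S.card : ℝ) ≤ ε / δ + 1 := by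
  have hlt : ∀ i ∈ S, ∀ j ∈ S, j < i → ⌊(v i - x) / δ⌋₊ ≠ ⌊(v j - x) / δ⌋₊ := by
    intro i hi j hj hij he
    have a1 := Nat.floor_le (div_nonneg (h1 i hi).1 hδ.le)
    have a2 := Nat.lt_floor_add_one ((v i - x) / δ)
    have b1 := Nat.floor_le (div_nonneg (h1 j hj).1 hδ.le)
    have b2 := Nat.lt_floor_add_one ((v j - x) / δ)
    rw [he] at a1 a2
    have h3 : |(v i - x) / δ - (v j - x) / δ| < 1 := by
      rw [abs_lt]; constructor <;> linarith
    have h4 : (v i - x) / δ - (v j - x) / δ = (v i - v j) / δ := by ring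
    rw [h4, abs_div, abs_of_pos hδ, div_lt_one hδ] at h3
    linarith [h2 i hi j hj hij]
  have h3 : S.card ≤ (range (⌊ε / δ⌋₊ + 1)).card := by
    refine card_le_card_of_injOn (fun i => ⌊(v i - x) / δ⌋₊) ?_ ?_
    · intro i hi
      rw [mem_coe, mem_range]
      have : ⌊(v i - x) / δ⌋₊ ≤ ⌊ε / δ⌋₊ :=
        Nat.floor_le_floor (div_le_div_of_nonneg_right (h1 i hi).2 hδ.le)
      exact Nat.lt_succ_of_le this
    · intro i hi j hj hij
      by_contra hne
      rcases Nat.lt_or_gt_of_ne hne with h | h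
      · exact hlt j hj i hi h hij.symm
      · exact hlt i hi j hj h hij
  rw [card_range] at h3
  have h4 : (S.card : ℝ) ≤ ((⌊ε / δ⌋₊ + 1 : ℕ) : ℝ) := by exact_mod_cast h3
  push_cast at h4
  have := Nat.floor_le (div_nonneg hε hδ.le)
  linarith

theorem lin (m A U : ℕ) (hm : 2 ≤ m) (S : Finset ℕ)
    (hS : ∀ i ∈ S, i < pe m ∧ ∃ u < U,
      ⌊((A + i + pe m * u : ℕ) : ℝ) / sr⌋ ≠
        ⌊((A + i : ℕ) : ℝ) / sr⌋ + ((pe (m - 1) * u : ℕ) : ℤ)) :
    (S.card : ℝ) ≤ 8 * U + 2 := by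
  classical
  obtain ⟨n, rfl⟩ : ∃ n, m = n + 1 := ⟨m - 1, by omega⟩
  have hφ := sr_pos
  have hF0 : (0 : ℝ) < pe (n + 1) := by exact_mod_cast pe_pos (by omega)
  obtain ⟨η, hη⟩ : ∃ η : ℝ, η = sr⁻¹ ^ (n + 1) := ⟨_, rfl⟩
  have hη0 : 0 < η := by rw [hη]; positivity
  have hηψ : |sc ^ (n + 1)| = η := by
    rw [hη, abs_pow, sc_abs]
  obtain ⟨v, hv⟩ : ∃ v : ℕ → ℝ, ∀ i, v i = Int.fract (((A + i : ℕ) : ℝ) / sr) :=
    ⟨_, fun _ => rfl⟩
  obtain ⟨ε, hε⟩ : ∃ ε : ℝ, ε = U * η := ⟨_, rfl⟩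
  have hε0 : 0 ≤ ε := by rw [hε]; positivity
  have hstep : ∀ u : ℕ, ((pe (n + 1) * u : ℕ) : ℝ) / sr =
      ((pe n * u : ℕ) : ℝ) - u * sc ^ (n + 1) := by
    intro u
    have h := sc_mul n
    rw [div_eq_mul_inv, inv_sr]
    push_cast
    rw [← h, sc_eq]
    ring
  -- the exceptional points
  have hex : ∀ i ∈ S, v i < ε ∨ 1 - ε < v i := by
    intro i hi
    obtain ⟨-, u, hu, hne⟩ := hS i hi
    by_contra hcon
    push Not at hcon
    obtain ⟨c1, c2⟩ := hcon
    apply hne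
    have e1 : ((A + i + pe (n + 1) * u : ℕ) : ℝ) / sr =
        (((A + i : ℕ) : ℝ) / sr - u * sc ^ (n + 1)) +
          (((pe (n + 1 - 1) * u : ℕ) : ℤ) : ℝ) := by
      have := hstep u
      rw [Nat.cast_add, add_div, this, Nat.add_sub_cancel]
      push_cast
      ring
    rw [e1, Int.floor_add_intCast]
    congr 1
    have hub : |(u : ℝ) * sc ^ (n + 1)| < ε := by
      rw [abs_mul, hηψ, hε, abs_of_nonneg (Nat.cast_nonneg u)]
      exact mul_lt_mul_of_pos_right (by exact_mod_cast hu) hη0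
    rw [abs_lt] at hub
    have hfl := Int.self_sub_floor (((A + i : ℕ) : ℝ) / sr)
    rw [← hv i] at hfl
    rw [Int.floor_eq_iff]
    constructor <;> linarith
  have hsep : ∀ i ∈ S, ∀ j ∈ S, j < i → 1 / (4 * (pe (n + 1) : ℝ)) ≤ |v i - v j| := by
    intro i hi j _ hij
    rw [hv, hv]
    exact sep A i j _ (hS i hi).1 hij
  have hδ : 0 < 1 / (4 * (pe (n + 1) : ℝ)) := by positivity
  have hv0 : ∀ i, 0 ≤ v i := fun i => by rw [hv]; exact Int.fract_nonneg _
  have hv1 : ∀ i, v i < 1 := fun i => by rw [hv]; exact Int.fract_lt_one _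
  have c1 := count (S.filter (fun i => v i < ε)) v 0 ε _ hδ hε0 (by
    intro i hi
    rw [mem_filter] at hi
    exact ⟨by linarith [hv0 i], by linarith⟩) (by
    intro i hi j hj hij
    exact hsep i (mem_filter.1 hi).1 j (mem_filter.1 hj).1 hij)
  have c2 := count (S.filter (fun i => 1 - ε < v i)) v (1 - ε) ε _ hδ hε0 (by
    intro i hi
    rw [mem_filter] at hi
    exact ⟨by linarith, by linarith [hv1 i]⟩) (by
    intro i hi j hj hij
    exact hsep i (mem_filter.1 hi).1 j (mem_filter.1 hj).1 hij)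
  have hc : S.card ≤ (S.filter (fun i => v i < ε)).card + (S.filter (fun i => 1 - ε < v i)).card := by
    refine (card_le_card ?_).trans (card_union_le _ _)
    intro i hi
    rw [mem_union, mem_filter, mem_filter]
    rcases hex i hi with h | h
    · exact Or.inl ⟨hi, h⟩
    · exact Or.inr ⟨hi, h⟩
  have hcR : (S.card : ℝ) ≤ ((S.filter (fun i => v i < ε)).card : ℝ) +
      ((S.filter (fun i => 1 - ε < v i)).card : ℝ) := by exact_mod_cast hc
  have hfin : ε / (1 / (4 * (pe (n + 1) : ℝ))) ≤ 4 * U := by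
    rw [div_div_eq_mul_div, div_one, hε]
    have h1 := pe_le' (n + 1)
    have h2 : η * pe (n + 1) ≤ 1 := by
      calc η * pe (n + 1) ≤ η * sr ^ (n + 1) :=
            mul_le_mul_of_nonneg_left h1 hη0.le
        _ = 1 := by
            rw [hη, inv_pow]
            field_simp
    calc U * η * (4 * (pe (n + 1) : ℝ)) = 4 * U * (η * pe (n + 1)) := by ring
      _ ≤ 4 * U * 1 := mul_le_mul_of_nonneg_left h2 (by positivity)
      _ = _ := by ring
  linarith

end Pool.Agent.U776.PS
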