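import Mathlib
import Pool.Agent.N176.GW.Stm
import Pool.Agent.N176.OW.TU2
import Pool.Agent.U776.PS.Lin

set_option autoImplicit false

/-! Sieve bound for `k` exponents in the silver base (silver version of `Pool.Agent.N581.GW.TUG`) -/

namespace Pool.Agent.U776.PS

open Finset
open Pool.Agent.N176.GW (S_LF)
open Pool.Agent.H305R2 (roughPart)

/-- the linear form of the silver base -/
noncomputable def gf (h N : ℕ) : ℤ :=
  (pe (h + 1) : ℤ) * N + (pe h : ℤ) * ⌊(N : ℝ) / sr⌋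

lemma fibZ (n i : ℕ) : ((pe (n + i) : ℕ) : ℤ) =
    (pe n : ℤ) * ((pe (i + 1) : ℤ) - 2 * pe i) + (pe (n + 1) : ℤ) * pe i := by
  rcases Nat.eq_zero_or_pos i with h | h
  · subst h
    simp [pe]
  · obtain ⟨j, rfl⟩ : ∃ j, i = j + 1 := ⟨i - 1, by omega⟩
    have h1 := pe_add n j
    have h2 : pe (j + 1 + 1) = 2 * pe (j + 1) + pe j := rfl
    rw [← add_assoc, h1, h2]
    push_cast
    ring

lemma cassini (n : ℕ) : ((pe (n + 1) : ℕ) : ℤ) ^ 2 - 2 * (pe (n + 1) : ℤ) * pe n -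
    (pe n : ℤ) ^ 2 = (-1) ^ n := by
  induction n with
  | zero => simp [pe]
  | succ n ih =>
    have h2 : pe (n + 1 + 1) = 2 * pe (n + 1) + pe n := rfl
    rw [h2, pow_succ (-1 : ℤ) n, ← ih]
    push_cast
    ring

lemma vajda (n i j : ℕ) : ((pe (n + i) : ℕ) : ℤ) * pe (n + j) -
    (pe n : ℤ) * pe (n + i + j) = (-1) ^ n * pe i * pe j := by
  have e1 := fibZ n i
  have e2 := fibZ n j
  have e3 := fibZ n (i + j)
  have e4 := fibZ i j
  have e5 := fibZ i (j + 1)
  have e6 : pe (j + 1 + 1) = 2 * pe (j + 1) + pe j := rfl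
  rw [← add_assoc] at e3 e5
  rw [e6] at e5
  push_cast at e5
  rw [e5, e4] at e3
  rw [← cassini n, e1, e2, e3]
  ring

/-- **Task TUG** in the silver base. -/
def S_TUG : Prop := ∀ K : ℝ, ∃ C : ℝ, 1 ≤ C ∧ ∃ P : ℕ, ∀ x ≥ P, ∀ F : Finset ℕ,
  (∀ p ∈ F, x < p ∧ p ≤ 2 * x) → (F.card : ℝ) ^ 2 ≤ Real.log x → ∀ p1 ∈ F, (∀ p ∈ F, p1 ≤ p) →
  ∀ e : ℕ → ℤ, (∀ p ∈ F, ((|e p| : ℤ) : ℝ) ≤ K * sr ^ (p - p1)) →
  ∀ A H : ℕ, sr ^ (x / 2) ≤ (A : ℝ) → sr ^ (x / 2) ≤ (H : ℝ) →
  ((A + H : ℕ) : ℝ) ≤ sr ^ (4 * x) →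
  (((Ico A (A + H)).filter (fun N => ∀ p ∈ F,
    (roughPart p (gf (p - p1) N + e p).toNat).Prime ∧
    (((gf (p - p1) N + e p).toNat / roughPart p (gf (p - p1) N + e p).toNat : ℕ) : ℝ) <
      Real.exp (x * Real.log sr / 8))).card : ℝ) ≤
    (C * F.card * (Real.log x / x)) ^ F.card * H

lemma gf_ge (h N : ℕ) : sr ^ h * ((N : ℝ) - 1) ≤ ((gf h N : ℤ) : ℝ) := by
  unfold gf
  push_cast
  have h1 := Int.sub_one_lt_floor ((N : ℝ) / sr)
  have h2 : (0 : ℝ) ≤ pe h := Nat.cast_nonneg _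
  have h3 := mul_le_mul_of_nonneg_left h1.le h2
  have h4 := pe_sr h
  have h5 := pe_le' h
  rw [mul_sub, mul_one, ← h4] at *
  have h6 : (pe (h + 1) : ℝ) * N + pe h * ((N : ℝ) / sr - 1) =
    ((pe (h + 1) : ℝ) + (pe h : ℝ) / sr) * N - pe h := by ring
  linarith

lemma gf_le (h N : ℕ) : ((gf h N : ℤ) : ℝ) ≤ sr ^ h * N := by
  unfold gf
  push_cast
  have h1 := Int.floor_le ((N : ℝ) / sr)
  have h2 : (0 : ℝ) ≤ pe h := Nat.cast_nonneg _
  have h3 := mul_le_mul_of_nonneg_left h1 h2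
  have h4 := pe_sr h
  rw [← h4]
  have h6 : ((pe (h + 1) : ℝ) + (pe h : ℝ) / sr) * N =
    (pe (h + 1) : ℝ) * N + pe h * ((N : ℝ) / sr) := by ring
  linarith

/-- the step -/
lemma gf_step {m h N u : ℕ} (hm : 1 ≤ m)
    (hl : ⌊((N + pe m * u : ℕ) : ℝ) / sr⌋ =
      ⌊((N : ℕ) : ℝ) / sr⌋ + ((pe (m - 1) * u : ℕ) : ℤ)) :
    gf h (N + pe m * u) = gf h N + (pe (m + h) : ℤ) * u := by
  unfold gf
  rw [hl]
  obtain ⟨n, rfl⟩ : ∃ n, m = n + 1 := ⟨m - 1, by omega⟩
  have h1 := pe_add n h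
  have h2 : n + 1 + h = n + h + 1 := by ring
  rw [h2, h1, Nat.add_sub_cancel]
  push_cast
  ring

/-- the degenerate values -/
lemma deg_one {m h d N N' : ℕ} {e e' : ℤ} (hd : 0 < d) (hm : 1 ≤ m)
    (hN : (gf h N + e) * (pe (m + (h + d)) : ℤ) = (gf (h + d) N + e') * (pe (m + h) : ℤ))
    (hN' : (gf h N' + e) * (pe (m + (h + d)) : ℤ) =
      (gf (h + d) N' + e') * (pe (m + h) : ℤ)) :
    (pe m : ℤ) ∣ (N : ℤ) - N' := by
  obtain ⟨n, rfl⟩ : ∃ n, m = n + 1 := ⟨m - 1, by omega⟩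
  have v1 := vajda (h + 1) d n
  have v2 := vajda h d (n + 1)
  have e1 : h + 1 + d = h + d + 1 := by ring
  have e2 : h + 1 + n = n + 1 + h := by ring
  have e3 : h + d + 1 + n = n + 1 + (h + d) := by ring
  have e4 : h + (n + 1) = n + 1 + h := by ring
  have e5 : h + d + (n + 1) = n + 1 + (h + d) := by ring
  rw [e1, e2, e3] at v1
  rw [e4, e5] at v2
  unfold gf at hN hN'
  generalize ⌊((N : ℕ) : ℝ) / sr⌋ = a at *
  generalize ⌊((N' : ℕ) : ℝ) / sr⌋ = a' at *
  have hkey : (-1) ^ h * (pe d : ℤ) * ((pe n : ℤ) * ((N : ℤ) - N') -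
      (pe (n + 1) : ℤ) * (a - a')) = 0 := by
    rw [pow_succ] at v1
    linear_combination hN - hN' + ((N : ℤ) - N') * v1 + ((a : ℤ) - a') * v2
  have hd0 : (pe d : ℤ) ≠ 0 := by
    exact_mod_cast (pe_pos hd).ne'
  have hs : ((-1 : ℤ)) ^ h ≠ 0 := pow_ne_zero _ (by norm_num)
  have h3 := (mul_eq_zero.1 hkey).resolve_left (mul_ne_zero hs hd0)
  have h4 : (pe (n + 1) : ℤ) ∣ (pe n : ℤ) * ((N : ℤ) - N') := ⟨a - a', by linarith⟩
  have h5 : IsCoprime (pe (n + 1) : ℤ) (pe n : ℤ) := by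
    rw [Nat.isCoprime_iff_coprime]
    exact (pe_coprime n).symm
  exact h5.dvd_of_dvd_mul_left h4

lemma blocks {f U H A : ℕ} (hf : 0 < f) (hU : 0 < U) (Q : ℕ → Prop) (Bad : ℕ → ℕ → Prop)
    {bnd β : ℝ} (hβ' : ∀ j, ∃ G : Finset ℕ, (∀ i < f, Bad j i → i ∈ G) ∧ (G.card : ℝ) ≤ β)
    (hgood' : ∀ j ≤ H / (f * U), ∀ i < f, ¬ Bad j i → ∀ G : Finset ℕ,
      (∀ u ∈ G, u < U ∧ Q (A + j * (f * U) + i + f * u)) → (G.card : ℝ) ≤ bnd) (hb : 0 ≤ bnd)
    (G : Finset ℕ) (hG : ∀ N ∈ G, (A ≤ N ∧ N < A + H) ∧ Q N) :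
    (G.card : ℝ) ≤ ((H / (f * U) + 1 : ℕ) : ℝ) * (f * bnd + β * U) := by
  classical
  have hβ : ∀ j, (((range f).filter (Bad j)).card : ℝ) ≤ β := by
    intro j
    obtain ⟨G, h1, h2⟩ := hβ' j
    refine le_trans ?_ h2
    norm_cast
    apply card_le_card
    intro i hi
    rw [mem_filter, mem_range] at hi
    exact h1 i hi.1 hi.2
  have hgood : ∀ j ≤ H / (f * U), ∀ i < f, ¬ Bad j i →
      (((range U).filter (fun u => Q (A + j * (f * U) + i + f * u))).card : ℝ) ≤ bnd := by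
    intro j hj i hi hbad
    refine hgood' j hj i hi hbad _ fun u hu => ?_
    rw [mem_filter, mem_range] at hu
    exact hu
  refine le_trans (b := (((Ico A (A + H)).filter Q).card : ℝ)) ?_ ?_
  · norm_cast
    apply card_le_card
    intro N hN
    rw [mem_filter, mem_Ico]
    exact hG N hN
  have hfU : 0 < f * U := Nat.mul_pos hf hU
  have hcov : (Ico A (A + H)).filter Q ⊆ (range (H / (f * U) + 1)).biUnion fun j =>
      (range f).biUnion fun i => ((range U).filter
        (fun u => Q (A + j * (f * U) + i + f * u))).image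
          (fun u => A + j * (f * U) + i + f * u) := by
    intro N hN
    rw [mem_filter, mem_Ico] at hN
    obtain ⟨⟨h1, h2⟩, h3⟩ := hN
    obtain ⟨n, hn⟩ : ∃ n, n = N - A := ⟨_, rfl⟩
    obtain ⟨r, hr⟩ : ∃ r, r = n % (f * U) := ⟨_, rfl⟩
    have hr1 : r < f * U := by
      rw [hr]
      exact Nat.mod_lt _ hfU
    have e1 : f * U * (n / (f * U)) + r = n := by
      rw [hr]
      exact Nat.div_add_mod _ _
    have e2 : f * (r / f) + r % f = r := Nat.div_add_mod _ _
    have e3 : N = A + n / (f * U) * (f * U) + r % f + f * (r / f) := by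
      rw [mul_comm (n / (f * U))]
      omega
    rw [mem_biUnion]
    refine ⟨n / (f * U), ?_, ?_⟩
    · rw [mem_range]
      exact Nat.lt_succ_of_le (Nat.div_le_div_right (by omega))
    · rw [mem_biUnion]
      refine ⟨r % f, mem_range.2 (Nat.mod_lt _ hf), ?_⟩
      rw [mem_image]
      refine ⟨r / f, ?_, e3.symm⟩
      rw [mem_filter, mem_range, ← e3]
      exact ⟨Nat.div_lt_of_lt_mul hr1, h3⟩
  have h1 : (((Ico A (A + H)).filter Q).card : ℝ) ≤ ∑ j ∈ range (H / (f * U) + 1),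
      ∑ i ∈ range f, (((range U).filter (fun u => Q (A + j * (f * U) + i + f * u))).card : ℝ) := by
    have h2 : ((Ico A (A + H)).filter Q).card ≤ ∑ j ∈ range (H / (f * U) + 1),
      ∑ i ∈ range f, ((range U).filter (fun u => Q (A + j * (f * U) + i + f * u))).card := by
      refine (card_le_card hcov).trans (card_biUnion_le.trans ?_)
      refine Finset.sum_le_sum fun j _ => card_biUnion_le.trans ?_
      exact Finset.sum_le_sum fun i _ => card_image_le
    exact_mod_cast h2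
  have h2 : ∀ j ∈ range (H / (f * U) + 1), ∑ i ∈ range f,
      (((range U).filter (fun u => Q (A + j * (f * U) + i + f * u))).card : ℝ) ≤
      f * bnd + β * U := by
    intro j hj
    rw [mem_range, Nat.lt_succ_iff] at hj
    have h3 : ∀ i ∈ range f,
        (((range U).filter (fun u => Q (A + j * (f * U) + i + f * u))).card : ℝ) ≤
        bnd + (if Bad j i then (U : ℝ) else 0) := by
      intro i hi
      rw [mem_range] at hi
      split_ifs with h
      · have h4 : ((range U).filter (fun u => Q (A + j * (f * U) + i + f * u))).card ≤ U := by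
          refine (card_filter_le _ _).trans ?_
          rw [card_range]
        have h5 : (((range U).filter (fun u => Q (A + j * (f * U) + i + f * u))).card : ℝ) ≤ U := by
          exact_mod_cast h4
        linarith
      · rw [add_zero]
        exact hgood j hj i hi h
    refine (Finset.sum_le_sum h3).trans ?_
    rw [Finset.sum_add_distrib, Finset.sum_const, card_range, nsmul_eq_mul, ← Finset.sum_filter,
      Finset.sum_const, nsmul_eq_mul]
    have := mul_le_mul_of_nonneg_right (hβ j) (Nat.cast_nonneg (α := ℝ) U)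
    linarith
  refine h1.trans ((Finset.sum_le_sum h2).trans ?_)
  rw [Finset.sum_const, card_range, nsmul_eq_mul]

/-- the degenerate residues -/
lemma degs {m p1 A' : ℕ} (hm : 1 ≤ m) (F : Finset ℕ) (hmin : ∀ p ∈ F, p1 ≤ p) (e : ℕ → ℤ) :
    ∃ G : Finset ℕ, (∀ i < pe m, (∃ p ∈ F, ∃ q ∈ F, p < q ∧
      (gf (p - p1) (A' + i) + e p) * (pe (m + (q - p1)) : ℤ) =
      (gf (q - p1) (A' + i) + e q) * (pe (m + (p - p1)) : ℤ)) → i ∈ G) ∧
      (G.card : ℝ) ≤ (F.card : ℝ) ^ 2 := by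
  classical
  refine ⟨(range (pe m)).filter (fun i => ∃ p ∈ F, ∃ q ∈ F, p < q ∧
      (gf (p - p1) (A' + i) + e p) * (pe (m + (q - p1)) : ℤ) =
      (gf (q - p1) (A' + i) + e q) * (pe (m + (p - p1)) : ℤ)),
      fun i hi h => mem_filter.2 ⟨mem_range.2 hi, h⟩, ?_⟩
  have hsub : (range (pe m)).filter (fun i => ∃ p ∈ F, ∃ q ∈ F, p < q ∧
      (gf (p - p1) (A' + i) + e p) * (pe (m + (q - p1)) : ℤ) =
      (gf (q - p1) (A' + i) + e q) * (pe (m + (p - p1)) : ℤ)) ⊆
      F.biUnion fun p => F.biUnion fun q => (range (pe m)).filter (fun i => p < q ∧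
      (gf (p - p1) (A' + i) + e p) * (pe (m + (q - p1)) : ℤ) =
      (gf (q - p1) (A' + i) + e q) * (pe (m + (p - p1)) : ℤ)) := by
    intro i hi
    rw [mem_filter] at hi
    obtain ⟨h1, p, hp, q, hq, h2⟩ := hi
    rw [mem_biUnion]
    refine ⟨p, hp, ?_⟩
    rw [mem_biUnion]
    exact ⟨q, hq, mem_filter.2 ⟨h1, h2⟩⟩
  have hone : ∀ p ∈ F, ∀ q ∈ F, ((range (pe m)).filter (fun i => p < q ∧
      (gf (p - p1) (A' + i) + e p) * (pe (m + (q - p1)) : ℤ) =
      (gf (q - p1) (A' + i) + e q) * (pe (m + (p - p1)) : ℤ))).card ≤ 1 := by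
    intro p hp q hq
    rw [card_le_one]
    intro i hi i' hi'
    rw [mem_filter, mem_range] at hi hi'
    obtain ⟨a1, a2, a3⟩ := hi
    obtain ⟨b1, b2, b3⟩ := hi'
    have hp1 := hmin p hp
    obtain ⟨d, hd⟩ : ∃ d, q - p1 = (p - p1) + d := ⟨q - p, by omega⟩
    rw [hd] at a3 b3
    have h1 := deg_one (d := d) (by omega) hm a3 b3
    have h2 : ((A' + i : ℕ) : ℤ) - ((A' + i' : ℕ) : ℤ) = (i : ℤ) - i' := by
      push_cast
      ring
    rw [h2] at h1
    have h3 : |(i : ℤ) - i'| < (pe m : ℤ) := by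
      rw [abs_lt]
      constructor <;> omega
    have h4 := Int.eq_zero_of_abs_lt_dvd h1 h3
    omega
  have h1 : ((range (pe m)).filter (fun i => ∃ p ∈ F, ∃ q ∈ F, p < q ∧
      (gf (p - p1) (A' + i) + e p) * (pe (m + (q - p1)) : ℤ) =
      (gf (q - p1) (A' + i) + e q) * (pe (m + (p - p1)) : ℤ))).card ≤ F.card * F.card := by
    refine (card_le_card hsub).trans (card_biUnion_le.trans ?_)
    have h2 : ∀ p ∈ F, (F.biUnion fun q => (range (pe m)).filter (fun i => p < q ∧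
      (gf (p - p1) (A' + i) + e p) * (pe (m + (q - p1)) : ℤ) =
      (gf (q - p1) (A' + i) + e q) * (pe (m + (p - p1)) : ℤ))).card ≤ F.card := by
      intro p hp
      refine card_biUnion_le.trans ((Finset.sum_le_sum (hone p hp)).trans ?_)
      rw [Finset.sum_const, smul_eq_mul, mul_one]
    refine (Finset.sum_le_sum h2).trans ?_
    rw [Finset.sum_const, smul_eq_mul]
  rw [sq]
  exact_mod_cast h1

lemma phi_exp (n : ℕ) : sr ^ n = Real.exp (n * Real.log sr) := by
  rw [mul_comm, Real.exp_mul, Real.exp_log sr_pos, Real.rpow_natCast]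

lemma log_phi_pos : 0 < Real.log sr := Real.log_pos one_lt_sr

lemma log_phi_le : Real.log sr ≤ 1 :=
  (Real.log_le_iff_le_exp sr_pos).2 (by linarith [Real.exp_one_gt_d9, sr_lt])

/-- few exceptions -/
def S_LIN : Prop := ∀ m A U : ℕ, 2 ≤ m →
  (((range (pe m)).filter (fun i => ∃ u < U,
    ⌊((A + i + pe m * u : ℕ) : ℝ) / sr⌋ ≠
      ⌊((A + i : ℕ) : ℝ) / sr⌋ + ((pe (m - 1) * u : ℕ) : ℤ))).card : ℝ) ≤ 8 * U + 2

theorem t_lin : S_LIN := by
  intro m A U hm
  refine lin m A U hm _ fun i hi => ?_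
  rw [Finset.mem_filter, Finset.mem_range] at hi
  exact hi

lemma main (h1 : S_LIN) {K C1 : ℝ} (hC1 : 1 ≤ C1) {x : ℕ}
    (h2 : ∀ F : Finset ℕ, F.Nonempty → (F.card : ℝ) ^ 2 ≤ Real.log x → ∀ a s : ℕ → ℤ,
      (∀ p ∈ F, s p ≠ 0 ∧ ((|a p| : ℤ) : ℝ) ≤ Real.exp (6 * Real.log sr * x) ∧
        ((|s p| : ℤ) : ℝ) ≤ Real.exp (6 * Real.log sr * x)) →
      (∀ p ∈ F, ∀ q ∈ F, p < q → a p * s q ≠ a q * s p) → ∀ U : ℕ,
      Real.log sr / 64 * x ≤ Real.log U → ∀ G : Finset ℕ,
      (∀ u ∈ G, u < U ∧ ∀ p ∈ F, ∀ l : ℕ, l.Prime → 2 * x < l → l ≤ U →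
        ¬ (l : ℤ) ∣ a p + s p * u) → (G.card : ℝ) ≤ (C1 * F.card * (Real.log x / x)) ^ F.card * U)
    {t : ℝ} (ht : t = x * Real.log sr / 64) (ht1 : 5 + 2 * |K| ≤ t)
    (ht2 : Real.log x ^ 2 ≤ t) (hx64 : 64 ≤ x) {F : Finset ℕ} (hF : ∀ p ∈ F, x < p ∧ p ≤ 2 * x)
    (hk : (F.card : ℝ) ^ 2 ≤ Real.log x) {p1 : ℕ} (hp1 : p1 ∈ F) (hmin : ∀ p ∈ F, p1 ≤ p)
    {e : ℕ → ℤ} (he : ∀ p ∈ F, ((|e p| : ℤ) : ℝ) ≤ K * sr ^ (p - p1)) {A H : ℕ}
    (hA : sr ^ (x / 2) ≤ (A : ℝ)) (hH : sr ^ (x / 2) ≤ (H : ℝ))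
    (hAH : ((A + H : ℕ) : ℝ) ≤ sr ^ (4 * x)) :
    (((Ico A (A + H)).filter (fun N => ∀ p ∈ F,
      (roughPart p (gf (p - p1) N + e p).toNat).Prime ∧
      (((gf (p - p1) N + e p).toNat / roughPart p (gf (p - p1) N + e p).toNat : ℕ) : ℝ) <
        Real.exp (x * Real.log sr / 8))).card : ℝ) ≤
      (4 * C1 * F.card * (Real.log x / x)) ^ F.card * H := by
  have hlp := log_phi_pos
  have hlp1 := log_phi_le
  have hφ := one_lt_sr
  have hφ2 := sr_lt
  obtain ⟨φ, hφd⟩ : ∃ φ, φ = sr := ⟨_, rfl⟩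
  obtain ⟨k, hkd⟩ : ∃ k, k = F.card := ⟨_, rfl⟩
  have hk1 : 1 ≤ k := by
    rw [hkd]
    exact Finset.card_pos.2 ⟨p1, hp1⟩
  have hk1R : (1 : ℝ) ≤ k := by exact_mod_cast hk1
  have hxR : (64 : ℝ) ≤ x := by exact_mod_cast hx64
  have hx0 : (0 : ℝ) < x := by linarith
  rw [← hkd] at hk ⊢
  have hL1 : 1 ≤ Real.log x := by nlinarith
  have hkL : (k : ℝ) ≤ Real.log x := by nlinarith
  have hK0 : K ≤ |K| := le_abs_self K
  have hKn : 0 ≤ |K| := abs_nonneg K
  have ht5 : 5 ≤ t := by linarith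
  have htexp : t + 1 ≤ Real.exp t := Real.add_one_le_exp t
  have hexp1 : 6 ≤ Real.exp t := by linarith
  -- powers
  have pw : ∀ n : ℕ, sr ^ n = Real.exp (n * Real.log sr) := phi_exp
  have xt : (x : ℝ) * Real.log sr = 64 * t := by rw [ht]; ring
  have p32 : sr ^ (x / 32) ≤ Real.exp (2 * t) := by
    rw [pw]
    apply Real.exp_le_exp.2
    have h3 : ((x / 32 : ℕ) : ℝ) ≤ x / 32 := Nat.cast_div_le
    have := mul_le_mul_of_nonneg_right h3 hlp.le
    linarith
  have p8 : Real.exp (7 * t) ≤ sr ^ (x / 8) := by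
    rw [pw]
    apply Real.exp_le_exp.2
    have h3 : (x : ℝ) / 8 - 1 ≤ ((x / 8 : ℕ) : ℝ) := by
      have h4 : x < 8 * (x / 8) + 8 := by omega
      have h5 : (x : ℝ) < 8 * ((x / 8 : ℕ) : ℝ) + 8 := by exact_mod_cast h4
      linarith
    have := mul_le_mul_of_nonneg_right h3 hlp.le
    nlinarith
  have p2 : Real.exp (31 * t) ≤ sr ^ (x / 2) := by
    rw [pw]
    apply Real.exp_le_exp.2
    have h3 : (x : ℝ) / 2 - 1 ≤ ((x / 2 : ℕ) : ℝ) := by
      have h4 : x < 2 * (x / 2) + 2 := by omega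
      have h5 : (x : ℝ) < 2 * ((x / 2 : ℕ) : ℝ) + 2 := by exact_mod_cast h4
      linarith
    have := mul_le_mul_of_nonneg_right h3 hlp.le
    nlinarith
  have px : sr ^ x = Real.exp (64 * t) := by rw [pw, xt]
  have p4x : sr ^ (4 * x) = Real.exp (256 * t) := by
    rw [pw]
    congr 1
    push_cast
    linarith
  have p6x : Real.exp (6 * Real.log sr * x) = Real.exp (384 * t) := by
    congr 1
    linarith
  have p6x' : sr ^ (6 * x) = Real.exp (384 * t) := by
    rw [pw]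
    congr 1
    push_cast
    linarith
  -- the parameters
  obtain ⟨m, hm⟩ : ∃ m, m = x / 8 + 2 := ⟨_, rfl⟩
  obtain ⟨f, hf⟩ : ∃ f, f = pe m := ⟨_, rfl⟩
  obtain ⟨U, hU⟩ : ∃ U, U = ⌊sr ^ (x / 32)⌋₊ + 1 := ⟨_, rfl⟩
  have hU0 : 0 < U := by omega
  have hf0 : 0 < f := by
    rw [hf]
    exact pe_pos (by omega)
  have hf0R : (0 : ℝ) < f := by exact_mod_cast hf0
  have hU0R : (0 : ℝ) < U := by exact_mod_cast hU0
  have hU1 : (U : ℝ) ≤ sr ^ (x / 32) + 1 := by
    rw [hU]
    push_cast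
    have := Nat.floor_le (show 0 ≤ sr ^ (x / 32) by positivity)
    linarith
  have hU2 : sr ^ (x / 32) < U := by
    rw [hU]
    push_cast
    exact Nat.lt_floor_add_one _
  have hUlog : Real.log sr / 64 * x ≤ Real.log U := by
    have h3 := Real.log_le_log (by positivity) hU2.le
    rw [Real.log_pow] at h3
    have h4 : (x : ℝ) / 64 ≤ ((x / 32 : ℕ) : ℝ) := by
      have h4 : x ≤ 64 * (x / 32) := by omega
      have h5 : (x : ℝ) ≤ 64 * ((x / 32 : ℕ) : ℝ) := by exact_mod_cast h4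
      linarith
    have := mul_le_mul_of_nonneg_right h4 hlp.le
    linarith
  have hfge : sr ^ (x / 8) ≤ f := by
    rw [hf, hm]
    exact pe_ge _
  have hfle : (f : ℝ) ≤ sr ^ (x / 8 + 1) := by
    rw [hf, hm]
    exact pe_le _
  have hp32 : 1 ≤ sr ^ (x / 32) := one_le_pow₀ hφ.le
  have hfU : (f : ℝ) * U ≤ sr ^ (x / 2) := by
    have h3 : (U : ℝ) ≤ sr ^ 2 * sr ^ (x / 32) := by
      rw [sr_sq]
      nlinarith
    calc (f : ℝ) * U ≤ sr ^ (x / 8 + 1) *
          (sr ^ 2 * sr ^ (x / 32)) := by gcongr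
      _ = sr ^ (x / 8 + 1 + (2 + x / 32)) := by rw [← pow_add, ← pow_add]
      _ ≤ sr ^ (x / 2) := pow_le_pow_right₀ hφ.le (by omega)
  have hfUH : (f : ℝ) * U ≤ H := hfU.trans hH
  have hfH : (f : ℝ) ≤ H := by
    have : (1 : ℝ) ≤ U := by exact_mod_cast hU0
    nlinarith
  have hH0 : (0 : ℝ) < H := lt_of_lt_of_le hf0R hfH
  -- the bounds
  obtain ⟨bnd, hbnd⟩ : ∃ bnd, bnd = (C1 * k * (Real.log x / x)) ^ k * U := ⟨_, rfl⟩
  obtain ⟨β, hβ⟩ : ∃ β : ℝ, β = 8 * U + 2 + (k : ℝ) ^ 2 := ⟨_, rfl⟩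
  have hbnd0 : 0 ≤ bnd := by
    rw [hbnd]
    positivity
  have key := blocks (A := A) (H := H) hf0 hU0 (fun N => ∀ p ∈ F,
      (roughPart p (gf (p - p1) N + e p).toNat).Prime ∧
      (((gf (p - p1) N + e p).toNat / roughPart p (gf (p - p1) N + e p).toNat : ℕ) : ℝ) <
        Real.exp (x * Real.log sr / 8))
    (fun j i => (∃ u < U, ⌊((A + j * (f * U) + i + pe m * u : ℕ) : ℝ) / sr⌋ ≠
      ⌊((A + j * (f * U) + i : ℕ) : ℝ) / sr⌋ + ((pe (m - 1) * u : ℕ) : ℤ)) ∨
      ∃ p ∈ F, ∃ q ∈ F, p < q ∧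
      (gf (p - p1) (A + j * (f * U) + i) + e p) * (pe (m + (q - p1)) : ℤ) =
      (gf (q - p1) (A + j * (f * U) + i) + e q) * (pe (m + (p - p1)) : ℤ))
    (bnd := bnd) (β := β) ?_ ?_ hbnd0 ((Ico A (A + H)).filter (fun N => ∀ p ∈ F,
      (roughPart p (gf (p - p1) N + e p).toNat).Prime ∧
      (((gf (p - p1) N + e p).toNat / roughPart p (gf (p - p1) N + e p).toNat : ℕ) : ℝ) <
        Real.exp (x * Real.log sr / 8))) (by
          intro N hN
          rw [mem_filter, mem_Ico] at hN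
          exact hN)
  · -- the end
    refine key.trans ?_
    have hb1 : ((H / (f * U) + 1 : ℕ) : ℝ) ≤ 2 * H / (f * U) := by
      have hfU0 : (0 : ℝ) < f * U := mul_pos hf0R hU0R
      have h3 : ((H / (f * U) : ℕ) : ℝ) ≤ H / (f * U) := by
        have := Nat.cast_div_le (α := ℝ) (m := H) (n := f * U)
        push_cast at this ⊢
        exact this
      have h4 : 1 ≤ (H : ℝ) / (f * U) := by
        rw [le_div_iff₀ hfU0]
        linarith
      push_cast at h3 ⊢
      have h5 : 2 * (H : ℝ) / (f * U) = H / (f * U) + H / (f * U) := by ring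
      rw [h5]
      linarith
    have hβ0 : 0 ≤ β := by rw [hβ]; positivity
    have hxk : (x : ℝ) ^ k ≤ Real.exp t := by
      have h3 : (x : ℝ) ^ k = Real.exp (k * Real.log x) := by
        rw [mul_comm, Real.exp_mul, Real.exp_log hx0, Real.rpow_natCast]
      rw [h3]
      apply Real.exp_le_exp.2
      nlinarith
    have hβf : β / f ≤ (k * (Real.log x / x)) ^ k := by
      have h3 : β ≤ 10 * Real.exp (2 * t) := by
        have h4 : (10 : ℝ) ≤ Real.exp (2 * t) := by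
          have : Real.exp (2 * t) = Real.exp t * Real.exp t := by rw [← Real.exp_add]; ring_nf
          nlinarith
        have h5 : Real.log x ≤ Real.exp (2 * t) := by
          have h6 : Real.log x ≤ t := by nlinarith
          have h7 : Real.exp t ≤ Real.exp (2 * t) := Real.exp_le_exp.2 (by linarith)
          linarith
        rw [hβ]
        linarith
      have h4 : Real.exp (7 * t) ≤ f := p8.trans hfge
      have h5 : ((x : ℝ) ^ k)⁻¹ ≤ (k * (Real.log x / x)) ^ k := by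
        rw [← inv_pow]
        apply pow_le_pow_left₀ (by positivity)
        rw [inv_eq_one_div, ← mul_div_assoc]
        apply div_le_div_of_nonneg_right _ hx0.le
        nlinarith
      refine le_trans ?_ h5
      have hxk0 : 0 < (x : ℝ) ^ k := by positivity
      rw [div_le_iff₀ hf0R, inv_mul_eq_div, le_div_iff₀ hxk0]
      calc β * (x : ℝ) ^ k ≤ 10 * Real.exp (2 * t) * Real.exp t := by gcongr
        _ ≤ (Real.exp t * Real.exp t) * Real.exp (2 * t) * Real.exp t := by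
            gcongr
            nlinarith
        _ = Real.exp (5 * t) := by
            rw [← Real.exp_add, ← Real.exp_add, ← Real.exp_add]
            ring_nf
        _ ≤ Real.exp (7 * t) := Real.exp_le_exp.2 (by linarith)
        _ ≤ f := h4
    have hw0 : 0 ≤ (k : ℝ) * (Real.log x / x) := by positivity
    have h6 : (k * (Real.log x / x)) ^ k ≤ (C1 * k * (Real.log x / x)) ^ k := by
      apply pow_le_pow_left₀ hw0
      rw [mul_assoc]
      nlinarith
    calc ((H / (f * U) + 1 : ℕ) : ℝ) * (f * bnd + β * U)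
        ≤ 2 * H / (f * U) * (f * bnd + β * U) := by
          apply mul_le_mul_of_nonneg_right hb1
          positivity
      _ = 2 * H * (C1 * k * (Real.log x / x)) ^ k + 2 * H * (β / f) := by
          rw [hbnd]
          field_simp
      _ ≤ 2 * H * (C1 * k * (Real.log x / x)) ^ k + 2 * H * (C1 * k * (Real.log x / x)) ^ k := by
          have := hβf.trans h6
          gcongr
      _ = 4 * (C1 * k * (Real.log x / x)) ^ k * H := by ring
      _ ≤ 4 ^ k * (C1 * k * (Real.log x / x)) ^ k * H := by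
          have h7 : (4 : ℝ) ≤ 4 ^ k := le_self_pow₀ (by norm_num) (by omega)
          gcongr
      _ = (4 * C1 * k * (Real.log x / x)) ^ k * H := by
          rw [← mul_pow]
          congr 2
          ring
  · -- bad
    intro j
    have h3 := h1 m (A + j * (f * U)) U (by omega)
    obtain ⟨G, h4, h5⟩ := degs (m := m) (p1 := p1) (A' := A + j * (f * U)) (by omega) F hmin e
    rw [← hf] at h3 h4
    rw [← hkd] at h5
    classical
    refine ⟨((range f).filter (fun i => ∃ u < U,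
      ⌊((A + j * (f * U) + i + f * u : ℕ) : ℝ) / sr⌋ ≠
      ⌊((A + j * (f * U) + i : ℕ) : ℝ) / sr⌋ +
        ((pe (m - 1) * u : ℕ) : ℤ))) ∪ G, ?_, ?_⟩
    · intro i hi hbad
      rw [mem_union]
      rcases hbad with h | h
      · left
        rw [mem_filter, mem_range]
        rw [← hf] at h
        exact ⟨hi, h⟩
      · right
        exact h4 i hi h
    · have h6 := Finset.card_union_le ((range f).filter (fun i => ∃ u < U,
        ⌊((A + j * (f * U) + i + f * u : ℕ) : ℝ) / sr⌋ ≠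
        ⌊((A + j * (f * U) + i : ℕ) : ℝ) / sr⌋ +
          ((pe (m - 1) * u : ℕ) : ℤ))) G
      have h7 := (Nat.cast_le (α := ℝ)).2 h6
      rw [Nat.cast_add] at h7
      rw [hβ]
      linarith
  · -- good
    intro j hj i hi hbad
    rw [not_or] at hbad
    obtain ⟨hb1, hb2⟩ := hbad
    push Not at hb1 hb2
    obtain ⟨N0, hN0⟩ : ∃ N0, N0 = A + j * (f * U) + i := ⟨_, rfl⟩
    rw [← hN0] at hb1 hb2 ⊢
    have hlin : ∀ u < U, ∀ h, gf h (N0 + f * u) = gf h N0 + (pe (m + h) : ℤ) * u := by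
      intro u hu h
      rw [hf]
      exact gf_step (by omega) (hb1 u hu)
    have hjH : j * (f * U) ≤ H := (Nat.mul_le_mul_right _ hj).trans (Nat.div_mul_le_self _ _)
    have hN0A : (A : ℝ) ≤ N0 := by
      rw [hN0]
      push_cast
      have : (0 : ℝ) ≤ (j : ℝ) * (f * U) := by positivity
      have h' : (0 : ℝ) ≤ i := Nat.cast_nonneg _
      linarith
    have hN0le : (N0 : ℝ) ≤ 2 * Real.exp (256 * t) := by
      have h3 : (i : ℝ) ≤ H := by
        have : (i : ℝ) < f := by exact_mod_cast hi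
        linarith
      have h4 : ((j * (f * U) : ℕ) : ℝ) ≤ H := by exact_mod_cast hjH
      rw [p4x] at hAH
      have h5 : (0 : ℝ) ≤ A := Nat.cast_nonneg _
      push_cast at hAH h4
      rw [hN0]
      push_cast
      linarith
    have hpos : ∀ p ∈ F, ∀ N : ℕ, (A : ℝ) ≤ N →
        sr ^ (x / 2) / 2 ≤ ((gf (p - p1) N + e p : ℤ) : ℝ) := by
      intro p hp N hN
      have h3 := gf_ge (p - p1) N
      have h4 := he p hp
      have h5 : -((|e p| : ℤ) : ℝ) ≤ ((e p : ℤ) : ℝ) := by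
        exact_mod_cast neg_abs_le (e p)
      have h6 : 1 ≤ sr ^ (p - p1) := one_le_pow₀ hφ.le
      have h7 : 2 + 2 * K ≤ sr ^ (x / 2) := by
        have h8 : Real.exp t ≤ Real.exp (31 * t) := Real.exp_le_exp.2 (by linarith)
        linarith
      have h8 : sr ^ (x / 2) / 2 ≤ (N : ℝ) - 1 - K := by linarith
      have h9 : 0 ≤ sr ^ (x / 2) / 2 := by positivity
      have h10 : (N : ℝ) - 1 - K ≤ sr ^ (p - p1) * ((N : ℝ) - 1 - K) :=
        le_mul_of_one_le_left (h9.trans h8) h6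
      push_cast
      have h11 : sr ^ (p - p1) * ((N : ℝ) - 1 - K) =
        sr ^ (p - p1) * ((N : ℝ) - 1) - K * sr ^ (p - p1) := by ring
      linarith
    intro G hG
    refine (h2 F ⟨p1, hp1⟩ (by rw [← hkd]; exact hk)
      (fun p => gf (p - p1) N0 + e p) (fun p => (pe (m + (p - p1)) : ℤ)) ?_ ?_ U hUlog G
      ?_).trans (le_of_eq (by rw [hbnd, hkd]))
    · intro p hp
      have hpF := hF p hp
      have hp1F := hF p1 hp1
      have hpx : p - p1 ≤ x := by omega
      have hφx : sr ^ (p - p1) ≤ Real.exp (64 * t) := by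
        rw [← px]
        exact pow_le_pow_right₀ hφ.le hpx
      refine ⟨?_, ?_, ?_⟩
      · have : 0 < pe (m + (p - p1)) := pe_pos (by omega)
        exact_mod_cast this.ne'
      · rw [p6x]
        have h3 := gf_le (p - p1) N0
        have h4 := he p hp
        have h5 : 0 ≤ gf (p - p1) N0 := by
          unfold gf
          have : 0 ≤ ⌊(N0 : ℝ) / sr⌋ := Int.floor_nonneg.2 (by positivity)
          positivity
        have h6 : ((|gf (p - p1) N0 + e p| : ℤ) : ℝ) ≤ ((gf (p - p1) N0 : ℤ) : ℝ) +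
            ((|e p| : ℤ) : ℝ) := by
          have h7 : |gf (p - p1) N0 + e p| ≤ |gf (p - p1) N0| + |e p| := abs_add_le _ _
          rw [abs_of_nonneg h5] at h7
          exact_mod_cast h7
        have h7 : K ≤ Real.exp (256 * t) := by
          have h8 : Real.exp t ≤ Real.exp (256 * t) := Real.exp_le_exp.2 (by linarith)
          linarith
        have h8 : (3 : ℝ) ≤ Real.exp (64 * t) := by
          have h9 : Real.exp t ≤ Real.exp (64 * t) := Real.exp_le_exp.2 (by linarith)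
          linarith
        have h9 : (0 : ℝ) < Real.exp (256 * t) := Real.exp_pos _
        have h10 : (0 : ℝ) < sr ^ (p - p1) := by positivity
        calc ((|gf (p - p1) N0 + e p| : ℤ) : ℝ) ≤ sr ^ (p - p1) * N0 +
              K * sr ^ (p - p1) := by linarith
          _ = sr ^ (p - p1) * (N0 + K) := by ring
          _ ≤ sr ^ (p - p1) * (3 * Real.exp (256 * t)) := by
              apply mul_le_mul_of_nonneg_left _ h10.le
              linarith
          _ ≤ Real.exp (64 * t) * (Real.exp (64 * t) * Real.exp (256 * t)) := by gcongr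
          _ = Real.exp (384 * t) := by
              rw [← Real.exp_add, ← Real.exp_add]
              ring_nf
      · rw [p6x, ← p6x', abs_of_nonneg (by positivity)]
        push_cast
        refine (pe_le' _).trans (pow_le_pow_right₀ hφ.le (by omega))
    · intro p hp q hq hpq
      exact hb2 p hp q hq hpq
    · intro u hu
      obtain ⟨hu1, hu2⟩ := hG u hu
      refine ⟨hu1, ?_⟩
      intro p hp l hl hxl hlU hd
      obtain ⟨g1, g2⟩ := hu2 p hp
      have hd' : (l : ℤ) ∣ gf (p - p1) (N0 + f * u) + e p := by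
        rw [hlin u hu1 (p - p1)]
        have e1 : gf (p - p1) N0 + (pe (m + (p - p1)) : ℤ) * u + e p =
          gf (p - p1) N0 + e p + (pe (m + (p - p1)) : ℤ) * u := by ring
        rw [e1]
        exact hd
      have hNA : (A : ℝ) ≤ ((N0 + f * u : ℕ) : ℝ) := by
        push_cast
        have : (0 : ℝ) ≤ (f : ℝ) * u := by positivity
        linarith
      have hp0 := hpos p hp (N0 + f * u) hNA
      obtain ⟨n, hn⟩ : ∃ n, n = gf (p - p1) (N0 + f * u) + e p := ⟨_, rfl⟩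
      rw [← hn] at hd' hp0 g1 g2
      have hn0 : 0 < n := by
        have : (0 : ℝ) < sr ^ (x / 2) / 2 := by positivity
        have h3 : (0 : ℝ) < ((n : ℤ) : ℝ) := by linarith
        exact_mod_cast h3
      obtain ⟨M, hM⟩ : ∃ M : ℕ, M = n.toNat := ⟨_, rfl⟩
      have hMn : (M : ℤ) = n := by rw [hM]; exact Int.toNat_of_nonneg hn0.le
      rw [← hM] at g1 g2
      rw [← hMn] at hd' hp0
      have hd2 : l ∣ M := by exact_mod_cast hd'
      have hpF := hF p hp
      have h3 := Pool.Agent.N176.OW.TU2.large g1 g2 hl (by omega) hd2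
      have h4 : (l : ℝ) ≤ U := by exact_mod_cast hlU
      have h5 : (M : ℝ) < Real.exp (8 * t) * (2 * Real.exp (2 * t)) := by
        have h6 : (x : ℝ) * Real.log sr / 8 = 8 * t := by linarith
        rw [h6] at h3
        have h7 : (U : ℝ) ≤ 2 * Real.exp (2 * t) := by linarith
        refine h3.trans_le ?_
        exact mul_le_mul_of_nonneg_left (h4.trans h7) (Real.exp_pos _).le
      have h6 : Real.exp (31 * t) / 2 ≤ (M : ℝ) := by
        have h7 : ((M : ℤ) : ℝ) = (M : ℝ) := Int.cast_natCast M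
        rw [h7] at hp0
        linarith
      have h7 : Real.exp (31 * t) = Real.exp (21 * t) * (Real.exp (8 * t) * Real.exp (2 * t)) := by
        rw [← Real.exp_add, ← Real.exp_add]
        ring_nf
      have h8 : 6 ≤ Real.exp (21 * t) := hexp1.trans (Real.exp_le_exp.2 (by linarith))
      have h9 : 0 < Real.exp (8 * t) * Real.exp (2 * t) := by positivity
      nlinarith

/-- **TUG**: the sieve bound for `k` exponents and fixed offsets in the golden base. -/
theorem tug (h1 : S_LIN) (h2 : S_LF) : S_TUG := by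
  intro K
  have hlp := log_phi_pos
  obtain ⟨C1, hC1, P, hP⟩ := h2 (6 * Real.log sr) (Real.log sr / 64)
    (by positivity)
  have hf1 : ∀ᶠ x : ℕ in Filter.atTop, Real.log x ^ 2 ≤ x * Real.log sr / 64 := by
    have h3 : (fun x : ℝ => Real.log x ^ 2) =o[Filter.atTop] fun x : ℝ => x :=
      Real.isLittleO_pow_log_id_atTop
    have h4 := h3.bound (c := Real.log sr / 64) (by positivity)
    have h5 := (tendsto_natCast_atTop_atTop (R := ℝ)).eventually h4
    filter_upwards [h5] with x hx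
    rw [Real.norm_eq_abs, Real.norm_eq_abs, abs_of_nonneg (by positivity :
      0 ≤ Real.log (x : ℝ) ^ 2), abs_of_nonneg (Nat.cast_nonneg (α := ℝ) x)] at hx
    linarith
  have hf2 : ∀ᶠ x : ℕ in Filter.atTop, 5 + 2 * |K| ≤ x * Real.log sr / 64 := by
    have h5 := (tendsto_natCast_atTop_atTop (R := ℝ)).eventually
      (Filter.eventually_ge_atTop ((5 + 2 * |K|) * 64 / Real.log sr))
    filter_upwards [h5] with x hx
    rw [div_le_iff₀ hlp] at hx
    linarith
  obtain ⟨P1, hP1⟩ := Filter.eventually_atTop.1 (hf1.and hf2)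
  refine ⟨4 * C1, by linarith, P + P1 + 64, ?_⟩
  intro x hx F hF hk p1 hp1 hmin e he A H hA hH hAH
  obtain ⟨g1, g2⟩ := hP1 x (by omega)
  refine main h1 hC1 ?_ rfl g2 g1 (by omega) hF hk hp1 hmin he hA hH hAH
  intro F' hF' hk' a s has hd U hU G hG
  classical
  refine le_trans ?_ (hP x (by omega) F' hF' hk' a s has hd U hU)
  norm_cast
  apply card_le_card
  intro u hu
  rw [mem_filter, mem_range]
  exact hG u hu

end Pool.Agent.U776.PS
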