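import Mathlib
import Pool.Agent.U776.PS.Kt
import Pool.Agent.U776.PG.G5
import Pool.Agent.N176.GW.All

set_option autoImplicit false

/-!
# The silver base: the model
-/

namespace Pool.Agent.U776.PS

open Pool.Agent.N176.GW (S_FM S_K S_RB kr)
open Pool.Agent.U776.PG (QM Er qm_real)

/-- the bound for several exponents in the silver base -/
theorem s_k : S_K sr (fun _ => 0) :=
  kt (tug t_lin Pool.Agent.N176.GW.All.lf) _ Pool.Agent.N176.GW.All.g0

theorem s_rb : S_RB sr (fun _ => 0) :=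
  Pool.Agent.N170.GW.rb sr one_lt_sr _ Pool.Agent.N176.GW.All.g0

theorem s_fm : S_FM sr := Pool.Agent.N603.GW.fm Pool.Agent.N176.OW.All.fw sr one_lt_sr

/-- the silver base -/
theorem qm_silver : ∃ (Λ A P : ℕ) (C c0 : ℝ), QM 2 (Er sr) (kr sr) Λ A P C c0 :=
  qm_real one_lt_sr s_k s_rb s_fm

end Pool.Agent.U776.PS
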