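import Mathlib
import Pool.Agent.U776.PS.All

set_option autoImplicit false

/-!
# The silver base: windows and the law of the iterated logarithm
-/

namespace Pool.Agent.U776.PS

open Pool.Agent.N176.GW

theorem s_ex : S_EX sr (fun _ => 0) := Pool.Agent.N966.GW.ex sr one_lt_sr _ s_k s_rb
theorem s_sm : S_SM sr (fun _ => 0) := Pool.Agent.N116.GW.sm sr one_lt_sr _ s_k s_rb
theorem s_bl : S_BL sr (fun _ => 0) := Pool.Agent.N176.GW.BL.bl one_lt_sr s_ex s_sm
theorem s_cl : S_CL sr (fun _ => 0) :=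
  Pool.Agent.N222.GW.cl sr one_lt_sr _ Pool.Agent.N176.GW.All.g0
theorem s_gc : S_GC sr (fun _ => 0) := Pool.Agent.N738.GW.gc sr one_lt_sr _ s_fm s_cl
theorem s_itm : S_ITM sr := Pool.Agent.N255.GW.itm sr one_lt_sr
theorem s_agr : S_AGR sr (fun _ => 0) :=
  Pool.Agent.N564.GW.agr sr one_lt_sr _ Pool.Agent.N176.GW.All.g0
theorem s_win : S_WIN sr (fun _ => 0) := win one_lt_sr s_itm s_agr s_bl s_ex s_gc
theorem s_lil : S_LIL sr (fun _ => 0) := lil one_lt_sr s_itm s_agr s_bl s_ex s_gc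

end Pool.Agent.U776.PS
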